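import Pool.Agent.Helper29.UG.Props
import Pool.Agent.Helper19.RC.Cross

/-!
# MP_b55b7c_an: variance from uniform property Gamma of the crossed product
-/

open scoped ENNReal NNReal InnerProductSpace ComplexOrder
open Filter Topology

attribute [-instance] CStarMatrix.instAlgebra CStarMatrix.instModule CStarMatrix.instSMul
  CStarMatrix.instMulAction CStarMatrix.instDistribMulAction

noncomputable section
namespace RC
universe u

set_option linter.unusedSectionVars false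
set_option linter.unusedVariables false

namespace H12VR
open H19Cross

section
variable {A : Type u} [CStarAlgebra A] [PartialOrder A] [StarOrderedRing A]
  {G : Type} [Group G] [Fintype G] [DecidableEq G]
  {R : Type u} [CStarAlgebra R] [PartialOrder R] [StarOrderedRing R]
  {α : G → A ≃⋆ₐ[ℂ] A} {k : A →⋆ₐ[ℂ] R} {w : G → R}

/-- the conditional expectation -/
def ce (hc : IsCross α k w) : R →ₗ[ℂ] A where
  toFun := fun r => cf hc r 1
  map_add' := fun r s => by rw [cf_add]; rfl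
  map_smul' := fun c r => by rw [cf_smul]; rfl

theorem ce_apply (hc : IsCross α k w) (r : R) : ce hc r = cf hc r 1 := rfl

theorem ce_left (hc : IsCross α k w) (a : A) (r : R) : ce hc (k a * r) = a * ce hc r := by
  rw [ce_apply, ce_apply, cf_unique hc (f := fun g => a * cf hc r g)]
  conv_lhs => rw [cf_spec hc r]
  rw [Finset.mul_sum]
  apply Finset.sum_congr rfl
  intro g _
  rw [map_mul, mul_assoc]

theorem ce_right (ha : IsAct α) (hc : IsCross α k w) (r : R) (b : A) :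
    ce hc (r * k b) = ce hc r * b := by
  rw [ce_apply, ce_apply, cf_unique hc (f := fun g => cf hc r g * α g b)]
  · show cf hc r 1 * α 1 b = _
    rw [act_one ha]
  · conv_lhs => rw [cf_spec hc r]
    rw [Finset.sum_mul]
    apply Finset.sum_congr rfl
    intro g _
    rw [map_mul, mul_assoc, u_k hc, mul_assoc]

theorem ce_one (hc : IsCross α k w) : ce hc 1 = 1 := by
  rw [ce_apply, cf_one, Pi.single_eq_same]

theorem ce_k (hc : IsCross α k w) (a : A) : ce hc (k a) = a := by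
  have := ce_left hc a 1
  rwa [mul_one, ce_one, mul_one] at this

theorem ce_conj (hc : IsCross α k w) (g : G) (r : R) :
    ce hc (w g * r * star (w g)) = α g (ce hc r) := by
  rw [ce_apply, ce_apply, cf_unique hc (f := fun x => α g (cf hc r (g⁻¹ * x * g)))]
  · simp
  · conv_lhs => rw [cf_spec hc r]
    rw [Finset.mul_sum, Finset.sum_mul]
    rw [← Equiv.sum_comp ((Equiv.mulLeft g⁻¹).trans (Equiv.mulRight g))]
    apply Finset.sum_congr rfl
    intro t _
    simp only [Equiv.trans_apply, Equiv.coe_mulLeft, Equiv.coe_mulRight]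
    rw [← mul_assoc, u_k hc, mul_assoc, mul_assoc, mul_assoc, u_star hc, ← hc.2.1, ← hc.2.1]
    congr 2
    group

theorem ce_star (ha : IsAct α) (hc : IsCross α k w) (r : R) :
    ce hc (star r) = star (ce hc r) := by
  rw [ce_apply, ce_apply, cf_star ha hc r 1, act_one ha, inv_one]

theorem ce_ss (ha : IsAct α) (hc : IsCross α k w) (s : R) :
    ce hc (star s * s) = ∑ t, star (α t (cf hc s t⁻¹)) * α t (cf hc s t⁻¹) := by
  rw [ce_apply, cf_mul ha hc]
  apply Finset.sum_congr rfl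
  intro t _
  rw [cf_star ha hc, mul_one, map_star]

theorem ce_nonneg (ha : IsAct α) (hc : IsCross α k w) {r : R} (hr : 0 ≤ r) :
    0 ≤ ce hc r := by
  obtain ⟨s, rfl⟩ := CStarAlgebra.nonneg_iff_eq_star_mul_self.1 hr
  rw [ce_ss ha hc]
  exact Finset.sum_nonneg fun t _ => star_mul_self_nonneg _

theorem ce_mono (ha : IsAct α) (hc : IsCross α k w) {r s : R} (hr : r ≤ s) :
    ce hc r ≤ ce hc s := by
  rw [← sub_nonneg, ← map_sub]
  exact ce_nonneg ha hc (sub_nonneg.2 hr)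

theorem ce_sq (ha : IsAct α) (hc : IsCross α k w) (s : R) :
    star (ce hc s) * ce hc s ≤ ce hc (star s * s) := by
  rw [ce_ss ha hc]
  have h1 : star (ce hc s) * ce hc s =
      star (α (1 : G) (cf hc s (1 : G)⁻¹)) * α (1 : G) (cf hc s (1 : G)⁻¹) := by
    rw [act_one ha, inv_one, ce_apply]
  rw [h1]
  exact Finset.single_le_sum (f := fun t => star (α t (cf hc s t⁻¹)) * α t (cf hc s t⁻¹))
    (fun t _ => star_mul_self_nonneg _) (Finset.mem_univ 1)

theorem cs_sum (a : G → R) :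
    star (∑ t, a t) * (∑ t, a t) ≤ Fintype.card G • ∑ t, star (a t) * a t := by
  have h1 : 0 ≤ ∑ s, ∑ t, star (a s - a t) * (a s - a t) :=
    Finset.sum_nonneg fun s _ => Finset.sum_nonneg fun t _ => star_mul_self_nonneg _
  have h2 : ∑ s, ∑ t, star (a s - a t) * (a s - a t) =
      (2 : ℕ) • (Fintype.card G • ∑ t, star (a t) * a t - star (∑ t, a t) * (∑ t, a t)) := by
    have h3 : ∀ s t, star (a s - a t) * (a s - a t) =
        star (a s) * a s + star (a t) * a t - star (a s) * a t - star (a t) * a s := by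
      intro s t
      rw [star_sub]
      noncomm_ring
    simp only [h3, Finset.sum_sub_distrib, Finset.sum_add_distrib, Finset.sum_const,
      Finset.card_univ]
    rw [star_sum, Finset.sum_mul_sum, Finset.sum_comm (f := fun x y => star (a y) * a x),
      ← Finset.smul_sum, two_smul]
    abel
  rw [h2] at h1
  rw [← sub_nonneg]
  set y := Fintype.card G • ∑ t, star (a t) * a t - star (∑ t, a t) * (∑ t, a t) with hy
  have h4 : (2 : ℝ)⁻¹ • ((2 : ℕ) • y) = y := by
    rw [two_smul, ← two_smul ℝ, smul_smul]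
    norm_num
  rw [← h4]
  exact smul_nonneg (by norm_num) h1

theorem pp (ha : IsAct α) (hc : IsCross α k w) {r : R} (hr : 0 ≤ r) :
    r ≤ Fintype.card G • k (ce hc r) := by
  obtain ⟨s, rfl⟩ := CStarAlgebra.nonneg_iff_eq_star_mul_self.1 hr
  have h1 : s = ∑ t : G, w t * k (α t⁻¹ (cf hc s t)) := by
    conv_lhs => rw [cf_spec hc s]
    apply Finset.sum_congr rfl
    intro t _
    rw [u_k hc, act_inv_right ha]
  have h2 : k (ce hc (star s * s)) =
      ∑ t : G, star (w t * k (α t⁻¹ (cf hc s t))) * (w t * k (α t⁻¹ (cf hc s t))) := by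
    rw [ce_ss ha hc, map_sum, ← Equiv.sum_comp (Equiv.inv G)]
    apply Finset.sum_congr rfl
    intro t _
    have h3 : star (w t) * w t = 1 := Unitary.star_mul_self_of_mem (hc.1 t)
    rw [Equiv.inv_apply, inv_inv, map_mul, map_star, star_mul]
    rw [mul_assoc, ← mul_assoc (star (w t)), h3, one_mul]
  rw [h2]
  have h3 := cs_sum (fun t : G => w t * k (α t⁻¹ (cf hc s t)))
  rw [← h1] at h3
  exact h3

/-- the trace on the crossed product -/
def tE (ha : IsAct α) (hc : IsCross α k w) (φ : TState A) (hφ : Inv α φ) : TState R where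
  φ := φ.φ ∘ₗ ce hc
  nonneg := fun r hr => φ.nonneg _ (ce_nonneg ha hc hr)
  trace := fun r s => by
    show φ.φ (ce hc (r * s)) = φ.φ (ce hc (s * r))
    rw [ce_apply, ce_apply, cf_mul ha hc, cf_mul ha hc, map_sum, map_sum,
      ← Equiv.sum_comp (Equiv.inv G)]
    apply Finset.sum_congr rfl
    intro t _
    rw [Equiv.inv_apply, inv_inv, mul_one, mul_one, ← hφ t, map_mul, ← ha, mul_inv_cancel,
      act_one ha, φ.trace]
  one := by
    show φ.φ (ce hc 1) = 1
    rw [ce_one, φ.one]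

theorem tE_apply (ha : IsAct α) (hc : IsCross α k w) (φ : TState A) (hφ : Inv α φ) (r : R) :
    (tE ha hc φ hφ).φ r = φ.φ (ce hc r) := rfl

theorem n2_ce (ha : IsAct α) (hc : IsCross α k w) (h : N2P.{u}) (φ : TState A) (hφ : Inv α φ)
    (r : R) : n2 φ (ce hc r) ≤ n2 (tE ha hc φ hφ) r := by
  apply Real.sqrt_le_sqrt
  rw [tE_apply]
  exact (h A φ).2.2.2 _ _ (ce_sq ha hc r)

theorem n2_act (φ : TState A) (hφ : Inv α φ) (g : G) (a : A) : n2 φ (α g a) = n2 φ a := by
  rw [n2, n2, ← map_star, ← map_mul, hφ]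

theorem n2_sum_le (h : N2P.{u}) (φ : TState A) (s : Finset G) (f : G → A) :
    n2 φ (∑ g ∈ s, f g) ≤ ∑ g ∈ s, n2 φ (f g) := by
  induction s using Finset.induction_on with
  | empty =>
    rw [Finset.sum_empty, Finset.sum_empty, n2, mul_zero, map_zero]
    simp
  | insert a s ha ih =>
    rw [Finset.sum_insert ha, Finset.sum_insert ha]
    exact ((h A φ).2.2.1 _ _).1.trans (add_le_add le_rfl ih)

/-- the average of the orbit -/
def av (α : G → A ≃⋆ₐ[ℂ] A) (a : A) : A := (Fintype.card G : ℂ)⁻¹ • ∑ g, α g a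

theorem card_ne : (Fintype.card G : ℂ) ≠ 0 := by
  have : Fintype.card G ≠ 0 := Fintype.card_ne_zero
  exact_mod_cast this

theorem n2_mean_le (h : N2P.{u}) (φ : TState A) (f : G → A) (δ : ℝ) (hf : ∀ g, n2 φ (f g) ≤ δ) :
    n2 φ ((Fintype.card G : ℂ)⁻¹ • ∑ g, f g) ≤ δ := by
  rw [(h A φ).2.1]
  have h1 := (n2_sum_le h φ Finset.univ f).trans (Finset.sum_le_sum fun g _ => hf g)
  rw [Finset.sum_const, Finset.card_univ, nsmul_eq_mul] at h1
  have h2 : (0 : ℝ) < Fintype.card G := by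
    have : 0 < Fintype.card G := Fintype.card_pos
    exact_mod_cast this
  rw [norm_inv, Complex.norm_natCast]
  calc (Fintype.card G : ℝ)⁻¹ * n2 φ (∑ g, f g)
      ≤ (Fintype.card G : ℝ)⁻¹ * (Fintype.card G * δ) :=
        mul_le_mul_of_nonneg_left h1 (by positivity)
    _ = δ := by field_simp

theorem norm_mean_le (f : G → ℂ) (δ : ℝ) (hf : ∀ g, ‖f g‖ ≤ δ) :
    ‖(Fintype.card G : ℂ)⁻¹ * ∑ g, f g‖ ≤ δ := by
  rw [norm_mul, norm_inv, Complex.norm_natCast]
  have h1 := (norm_sum_le Finset.univ f).trans (Finset.sum_le_sum fun g _ => hf g)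
  rw [Finset.sum_const, Finset.card_univ, nsmul_eq_mul] at h1
  have h2 : (0 : ℝ) < Fintype.card G := by
    have : 0 < Fintype.card G := Fintype.card_pos
    exact_mod_cast this
  calc (Fintype.card G : ℝ)⁻¹ * ‖∑ g, f g‖
      ≤ (Fintype.card G : ℝ)⁻¹ * (Fintype.card G * δ) :=
        mul_le_mul_of_nonneg_left h1 (by positivity)
    _ = δ := by field_simp

theorem mean_const (a : A) : (Fintype.card G : ℂ)⁻¹ • ∑ _g : G, a = a := by
  rw [Finset.sum_const, Finset.card_univ, ← Nat.cast_smul_eq_nsmul ℂ, smul_smul,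
    inv_mul_cancel₀ card_ne, one_smul]

theorem mean_constC (a : ℂ) : (Fintype.card G : ℂ)⁻¹ * ∑ _g : G, a = a := by
  rw [Finset.sum_const, Finset.card_univ, nsmul_eq_mul, ← mul_assoc,
    inv_mul_cancel₀ card_ne, one_mul]

theorem av_inv (ha : IsAct α) (g : G) (a : A) : α g (av α a) = av α a := by
  rw [av, map_smul, map_sum]
  congr 1
  rw [← Equiv.sum_comp (Equiv.mulLeft g) (fun t => α t a)]
  apply Finset.sum_congr rfl
  intro t _
  rw [Equiv.coe_mulLeft, ha]

theorem act_nonneg (g : G) {a : A} (h0 : 0 ≤ a) : 0 ≤ α g a := by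
  obtain ⟨s, rfl⟩ := CStarAlgebra.nonneg_iff_eq_star_mul_self.1 h0
  rw [map_mul, map_star]
  exact star_mul_self_nonneg _

theorem act_le_one (g : G) {a : A} (h0 : a ≤ 1) : α g a ≤ 1 := by
  have h1 : 0 ≤ α g (1 - a) := act_nonneg g (sub_nonneg.2 h0)
  rwa [map_sub, map_one, sub_nonneg] at h1

theorem inv_card : ((Fintype.card G : ℂ)⁻¹) = (((Fintype.card G : ℝ)⁻¹ : ℝ) : ℂ) := by
  push_cast
  rfl

theorem av_nonneg {a : A} (h0 : 0 ≤ a) : 0 ≤ av α a := by
  rw [av, inv_card, Complex.coe_smul]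
  exact smul_nonneg (by positivity) (Finset.sum_nonneg fun g _ => act_nonneg g h0)

theorem av_le_one {a : A} (h0 : a ≤ 1) : av α a ≤ 1 := by
  have h1 : 0 ≤ av α (1 - a) := av_nonneg (sub_nonneg.2 h0)
  have h2 : av α (1 - a) = 1 - av α a := by
    have h3 : ∀ g, α g (1 - a) = 1 - α g a := fun g => by rw [map_sub, map_one]
    rw [av, av]
    simp only [h3]
    rw [Finset.sum_sub_distrib, smul_sub, mean_const]
  rwa [h2, sub_nonneg] at h1

/-- the commutator -/
theorem comm_av (ha : IsAct α) (hc : IsCross α k w) (h : N2P.{u}) (φ : TState A)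
    (hφ : Inv α φ) (e : R) (z : A) (δ : ℝ)
    (hz : ∀ g, n2 (tE ha hc φ hφ) (e * k (α g z) - k (α g z) * e) ≤ δ) :
    n2 φ (av α (ce hc e) * z - z * av α (ce hc e)) ≤ δ := by
  have h1 : av α (ce hc e) * z - z * av α (ce hc e) =
      (Fintype.card G : ℂ)⁻¹ • ∑ g, α g (ce hc (e * k (α g⁻¹ z) - k (α g⁻¹ z) * e)) := by
    rw [av, smul_mul_assoc, mul_smul_comm, ← smul_sub, Finset.sum_mul, Finset.mul_sum,
      ← Finset.sum_sub_distrib]
    congr 1
    apply Finset.sum_congr rfl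
    intro g _
    rw [map_sub, ce_left, ce_right ha, map_sub, map_mul, map_mul, act_inv_right ha]
  rw [h1]
  apply n2_mean_le h
  intro g
  rw [n2_act φ hφ]
  exact (n2_ce ha hc h φ hφ _).trans (hz g⁻¹)

theorem tr_av (ha : IsAct α) (hc : IsCross α k w) (φ : TState A)
    (hφ : Inv α φ) (e : R) (z : A) (δ : ℝ) (c : ℂ)
    (hz : ∀ g, ‖(tE ha hc φ hφ).φ (e * k (α g z)) - (tE ha hc φ hφ).φ (k (α g z)) / c‖ ≤ δ) :
    ‖φ.φ (av α (ce hc e) * z) - φ.φ z / c‖ ≤ δ := by
  have h1 : φ.φ (av α (ce hc e) * z) - φ.φ z / c =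
      (Fintype.card G : ℂ)⁻¹ * ∑ g, ((tE ha hc φ hφ).φ (e * k (α g⁻¹ z)) -
        (tE ha hc φ hφ).φ (k (α g⁻¹ z)) / c) := by
    rw [Finset.sum_sub_distrib, mul_sub]
    congr 1
    · rw [av, smul_mul_assoc, map_smul, smul_eq_mul, Finset.sum_mul, map_sum]
      congr 1
      apply Finset.sum_congr rfl
      intro g _
      rw [tE_apply, ce_right ha, ← hφ g (ce hc e * α g⁻¹ z), map_mul (α g), act_inv_right ha]
    · have h2 : ∀ g : G, (tE ha hc φ hφ).φ (k (α g⁻¹ z)) / c = φ.φ z / c := by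
        intro g
        rw [tE_apply, ce_k, hφ]
      simp only [h2]
      rw [mean_constC]
  rw [h1]
  exact norm_mean_le _ _ fun g => hz g⁻¹

theorem av_sub (ha : IsAct α) (hc : IsCross α k w) (h : N2P.{u}) (φ : TState A)
    (hφ : Inv α φ) (e : R) (δ : ℝ)
    (hz : ∀ g, n2 (tE ha hc φ hφ) (e * w g - w g * e) ≤ δ) :
    n2 φ (av α (ce hc e) - ce hc e) ≤ δ := by
  have h1 : av α (ce hc e) - ce hc e =
      (Fintype.card G : ℂ)⁻¹ • ∑ g, ce hc (w g * e * star (w g) - e) := by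
    have h2 : ∀ g, ce hc (w g * e * star (w g) - e) = α g (ce hc e) - ce hc e := by
      intro g
      rw [map_sub, ce_conj]
    simp only [h2]
    rw [Finset.sum_sub_distrib, smul_sub, mean_const, av]
  rw [h1]
  apply n2_mean_le h
  intro g
  refine (n2_ce ha hc h φ hφ _).trans ?_
  have h3 : w g * star (w g) = 1 := Unitary.mul_star_self_of_mem (hc.1 g)
  have h4 : w g * e * star (w g) - e = -(e * w g - w g * e) * star (w g) := by
    rw [neg_sub, sub_mul, mul_assoc e, h3, mul_one]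
  rw [h4]
  have h5 : n2 (tE ha hc φ hφ) (-(e * w g - w g * e) * star (w g)) =
      n2 (tE ha hc φ hφ) (-(e * w g - w g * e)) := by
    have h6 : star (w g) * w g = 1 := Unitary.star_mul_self_of_mem (hc.1 g)
    generalize -(e * w g - w g * e) = y
    rw [n2, n2, star_mul, star_star, mul_assoc, (tE ha hc φ hφ).trace, mul_assoc, mul_assoc,
      h6, mul_one]
  rw [h5, ((h R (tE ha hc φ hφ)).1 (e * w g - w g * e)).2.2.2.2.2]
  exact hz g

theorem sq_le {D : Type u} [CStarAlgebra D] [PartialOrder D] [StarOrderedRing D] {y : D}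
    (h0 : 0 ≤ y) (h1 : y ≤ 1) : y * y ≤ y := by
  have h2 := CStarAlgebra.pow_antitone h0 h1 (show 1 ≤ 2 by norm_num)
  simpa only [pow_one, pow_two] using h2

theorem sub_sq_nonneg {D : Type u} [CStarAlgebra D] [PartialOrder D] [StarOrderedRing D] {y : D}
    (h0 : 0 ≤ y) (h1 : y ≤ 1) : 0 ≤ y - y * y := sub_nonneg.2 (sq_le h0 h1)

theorem n2_sub_sq (h : N2P.{u}) {D : Type u} [CStarAlgebra D] [PartialOrder D]
    [StarOrderedRing D] (ψ : TState D) {e : D} (h0 : 0 ≤ e) (h1 : e ≤ 1) {δ : ℝ} (hδ : 0 ≤ δ)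
    (h2 : (ψ.φ (e - e * e)).re ≤ δ ^ 2) : n2 ψ (e - e * e) ≤ δ := by
  have h3 : 0 ≤ e - e * e := sub_sq_nonneg h0 h1
  have h4 : e - e * e ≤ 1 := by
    refine le_trans ?_ h1
    rw [sub_le_self_iff]
    have := star_mul_self_nonneg e
    rwa [(IsSelfAdjoint.of_nonneg h0).star_eq] at this
  rw [n2, (IsSelfAdjoint.of_nonneg h3).star_eq]
  rw [← Real.sqrt_sq hδ]
  apply Real.sqrt_le_sqrt
  exact ((h D ψ).2.2.2 _ _ (sq_le h3 h4)).trans h2

theorem pos_q {D : Type u} [CStarAlgebra D] [PartialOrder D]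
    [StarOrderedRing D] (ψ : TState D) {y : D} (h0 : 0 ≤ y) (v : D) :
    0 ≤ (ψ.φ (y * (v * star v))).re := by
  have h1 : 0 ≤ ψ.φ (star v * y * v) := ψ.nonneg _ (star_left_conjugate_nonneg h0 v)
  rw [mul_assoc, ψ.trace, mul_assoc] at h1
  exact (Complex.le_def.1 h1).1

theorem mono_q {D : Type u} [CStarAlgebra D] [PartialOrder D]
    [StarOrderedRing D] (ψ : TState D) {y y' : D} (h0 : y ≤ y') (v : D) :
    (ψ.φ (y * (v * star v))).re ≤ (ψ.φ (y' * (v * star v))).re := by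
  have h1 := pos_q ψ (sub_nonneg.2 h0) v
  rw [sub_mul, map_sub, Complex.sub_re] at h1
  linarith

/-- the lower bound of the second moment -/
theorem low (ha : IsAct α) (hc : IsCross α k w) (h : N2P.{u}) (φ : TState A)
    (hφ : Inv α φ) (e : R) (he0 : 0 ≤ e) (he1 : e ≤ 1) (z : A) (δ M : ℝ) (hδ0 : 0 ≤ δ)
    (hδ1 : δ ≤ 1) (hM : 1 ≤ M) (hzM : ‖z‖ ≤ M)
    (h1 : ((tE ha hc φ hφ).φ (e - e * e)).re ≤ δ ^ 2)
    (h2 : n2 (tE ha hc φ hφ) (e * k (z * star z) - k (z * star z) * e) ≤ δ)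
    (h3 : ‖(tE ha hc φ hφ).φ (e * k (z * star z)) -
      (tE ha hc φ hφ).φ (k (z * star z)) / (2 * Fintype.card G : ℂ)‖ ≤ δ) :
    (1 / (Fintype.card G : ℝ)) * (n2 φ z ^ 2 / (2 * Fintype.card G) - δ - 2 * (M ^ 2 * δ)) -
      M ^ 2 * δ - δ ≤ n2 φ (ce hc e * z) ^ 2 := by
  set ψ := tE ha hc φ hφ with hψ
  set q := k (z * star z) with hq
  have hn : (0 : ℝ) < Fintype.card G := by
    have : 0 < Fintype.card G := Fintype.card_pos
    exact_mod_cast this
  have hqs : star q = q := by rw [hq, ← map_star, star_mul, star_star]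
  have hx0 : 0 ≤ ce hc e := ce_nonneg ha hc he0
  have hx1 : ce hc e ≤ 1 := by
    have := ce_mono ha hc he1
    rwa [ce_one] at this
  have hxs : star (ce hc e) = ce hc e := (IsSelfAdjoint.of_nonneg hx0).star_eq
  have hes : star e = e := (IsSelfAdjoint.of_nonneg he0).star_eq
  set p := k (ce hc e) with hp
  have hps : star p = p := by rw [hp, ← map_star, hxs]
  have hpn : ‖p‖ ≤ 1 := by
    refine (NonUnitalStarAlgHom.norm_apply_le k _).trans ?_
    exact (CStarAlgebra.norm_le_one_iff_of_nonneg _ hx0).2 hx1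
  have hen : ‖e‖ ≤ 1 := (CStarAlgebra.norm_le_one_iff_of_nonneg _ he0).2 he1
  have hqn : ‖q‖ ≤ M ^ 2 := by
    refine (NonUnitalStarAlgHom.norm_apply_le k _).trans ?_
    refine (norm_mul_le _ _).trans ?_
    rw [norm_star, pow_two]
    exact mul_le_mul hzM hzM (norm_nonneg _) (by linarith)
  have hee : n2 ψ (e - e * e) ≤ δ := n2_sub_sq h ψ he0 he1 hδ0 h1
  -- step a
  have ha1 : n2 φ (ce hc e * z) ^ 2 = (ψ.φ (p * e * q)).re := by
    rw [((h A φ).1 _).2.1, star_mul, hxs, mul_assoc, φ.trace, hψ, tE_apply, hq, hp,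
      ce_right ha, ce_left]
    simp only [mul_assoc]
  -- step b
  have hb1 : ‖ψ.φ (p * e * q) - ψ.φ (p * (e * e) * q)‖ ≤ M ^ 2 * δ := by
    have e1 : ψ.φ (p * e * q) - ψ.φ (p * (e * e) * q) = ψ.φ (star (p * q) * (e - e * e)) := by
      rw [← map_sub, star_mul, hqs, hps, ← sub_mul, ← mul_sub, ψ.trace, mul_assoc]
    rw [e1]
    refine ((h R ψ).2.2.1 (p * q) (e - e * e)).2.2.2.2.trans ?_
    refine mul_le_mul ?_ hee ((h R ψ).1 _).1 (by positivity)
    refine ((h R ψ).1 (p * q)).2.2.1.trans ?_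
    refine (norm_mul_le _ _).trans ?_
    calc ‖p‖ * ‖q‖ ≤ 1 * M ^ 2 := mul_le_mul hpn hqn (norm_nonneg _) zero_le_one
      _ = M ^ 2 := one_mul _
  -- step c
  have hc1 : ‖ψ.φ (p * (e * e) * q) - ψ.φ (p * e * q * e)‖ ≤ δ := by
    have e1 : ψ.φ (p * (e * e) * q) - ψ.φ (p * e * q * e) =
        ψ.φ (star (e * p) * (e * q - q * e)) := by
      rw [← map_sub, star_mul, hes, hps]
      congr 1
      noncomm_ring
    rw [e1]
    refine ((h R ψ).2.2.1 (e * p) (e * q - q * e)).2.2.2.2.trans ?_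
    have e2 : n2 ψ (e * p) ≤ 1 := by
      refine ((h R ψ).1 (e * p)).2.2.1.trans ?_
      refine (norm_mul_le _ _).trans ?_
      calc ‖e‖ * ‖p‖ ≤ 1 * 1 := mul_le_mul hen hpn (norm_nonneg _) zero_le_one
        _ = 1 := one_mul _
    calc n2 ψ (e * p) * n2 ψ (e * q - q * e) ≤ 1 * δ :=
          mul_le_mul e2 h2 ((h R ψ).1 _).1 zero_le_one
      _ = δ := one_mul _
  -- step d
  have hd1 : (ψ.φ (e * e * e * q)).re ≤ Fintype.card G * (ψ.φ (p * e * q * e)).re := by
    have e1 : e * e * e ≤ Fintype.card G • (e * p * e) := by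
      have e2 := star_left_conjugate_le_conjugate (pp ha hc he0) e
      rw [hes] at e2
      rw [mul_smul_comm, smul_mul_assoc] at e2
      exact e2
    have e3 := mono_q ψ e1 (k z)
    have e4 : k z * star (k z) = q := by rw [hq, map_mul, map_star]
    rw [e4, smul_mul_assoc, map_nsmul] at e3
    have e5 : ψ.φ (p * e * q * e) = ψ.φ (e * p * e * q) := by
      rw [ψ.trace]
      congr 1
      simp only [mul_assoc]
    rw [e5]
    refine e3.trans (le_of_eq ?_)
    rw [nsmul_eq_mul, Complex.mul_re]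
    simp
  -- step e
  have he2 : (ψ.φ (e * q)).re - 2 * (M ^ 2 * δ) ≤ (ψ.φ (e * e * e * q)).re := by
    have e1 : e - (2 : ℕ) • (e - e * e) ≤ e * e * e := by
      rw [← sub_nonneg]
      have e2 : e * e * e - (e - (2 : ℕ) • (e - e * e)) = star (1 - e) * e * (1 - e) := by
        rw [star_sub, star_one, hes]
        noncomm_ring
      rw [e2]
      exact star_left_conjugate_nonneg he0 _
    have e3 := mono_q ψ e1 (k z)
    have e4 : k z * star (k z) = q := by rw [hq, map_mul, map_star]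
    rw [e4, sub_mul, smul_mul_assoc, map_sub, map_nsmul, Complex.sub_re] at e3
    have e5 : ‖ψ.φ ((e - e * e) * q)‖ ≤ M ^ 2 * δ := by
      have e6 : (e - e * e) * q = star (e - e * e) * q := by
        rw [star_sub, star_mul, hes]
      rw [e6]
      refine ((h R ψ).2.2.1 (e - e * e) q).2.2.2.2.trans ?_
      rw [mul_comm]
      exact mul_le_mul (((h R ψ).1 q).2.2.1.trans hqn) hee ((h R ψ).1 _).1 (by positivity)
    have e7 : ((2 : ℕ) • ψ.φ ((e - e * e) * q)).re ≤ 2 * (M ^ 2 * δ) := by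
      rw [two_smul, Complex.add_re]
      have := (Complex.re_le_norm (ψ.φ ((e - e * e) * q))).trans e5
      linarith
    linarith
  -- step f
  have hf1 : n2 φ z ^ 2 / (2 * Fintype.card G) - δ ≤ (ψ.φ (e * q)).re := by
    have e1 : ψ.φ q = φ.φ (star z * z) := by
      rw [hψ, tE_apply, hq, ce_k, φ.trace]
    have e2 : (ψ.φ q / (2 * Fintype.card G : ℂ)).re = n2 φ z ^ 2 / (2 * Fintype.card G) := by
      have e3 : (2 * Fintype.card G : ℂ) = ((2 * Fintype.card G : ℝ) : ℂ) := by push_cast; rfl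
      rw [e3, Complex.div_ofReal_re, e1, ((h A φ).1 z).2.1]
    have e3 := (Complex.abs_re_le_norm _).trans h3
    rw [Complex.sub_re, e2] at e3
    have := (abs_le.1 e3).1
    linarith
  have hb2 := (Complex.abs_re_le_norm _).trans hb1
  have hc2 := (Complex.abs_re_le_norm _).trans hc1
  rw [Complex.sub_re] at hb2 hc2
  have hb3 := (abs_le.1 hb2).1
  have hc3 := (abs_le.1 hc2).1
  rw [ha1]
  have hg1 : (1 / (Fintype.card G : ℝ)) * (n2 φ z ^ 2 / (2 * Fintype.card G) - δ -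
      2 * (M ^ 2 * δ)) ≤ (ψ.φ (p * e * q * e)).re := by
    rw [one_div, inv_mul_le_iff₀ hn]
    linarith
  linarith

theorem norm_le_one_aux {D : Type u} [CStarAlgebra D] [PartialOrder D] [StarOrderedRing D]
    {x : D} (h0 : 0 ≤ x) (h1 : x ≤ 1) {c : ℝ} (hc0 : 0 ≤ c) (hc1 : c ≤ 1 / 2) :
    ‖x - c • (1 : D)‖ ≤ 1 := by
  have hxs : star x = x := (IsSelfAdjoint.of_nonneg h0).star_eq
  have h2 : ‖(1 : D)‖ ≤ 1 := (CStarAlgebra.norm_le_one_iff_of_nonneg (1 : D) zero_le_one).2 le_rfl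
  have h3 : ‖1 - (2 : ℝ) • x‖ ≤ 1 := by
    have h4 : star (1 - (2 : ℝ) • x) * (1 - (2 : ℝ) • x) ≤ 1 := by
      rw [← sub_nonneg]
      have h5 : 1 - star (1 - (2 : ℝ) • x) * (1 - (2 : ℝ) • x) = (4 : ℝ) • (x - x * x) := by
        rw [star_sub, star_one, star_smul, star_trivial, hxs]
        simp only [sub_mul, mul_sub, one_mul, mul_one, smul_mul_assoc, mul_smul_comm, smul_smul,
          smul_sub]
        module
      rw [h5]
      exact smul_nonneg (by norm_num) (sub_sq_nonneg h0 h1)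
    have h5 := (CStarAlgebra.norm_le_one_iff_of_nonneg _ (star_mul_self_nonneg _)).2 h4
    rw [CStarRing.norm_star_mul_self] at h5
    nlinarith [norm_nonneg (1 - (2 : ℝ) • x)]
  have h6 : x - c • (1 : D) = (-(1 / 2) : ℝ) • (1 - (2 : ℝ) • x) + (1 / 2 - c) • (1 : D) := by
    module
  rw [h6]
  refine (norm_add_le _ _).trans ?_
  rw [norm_smul, norm_smul]
  have h7 : ‖(-(1 / 2) : ℝ)‖ = 1 / 2 := by norm_num
  have h8 : ‖(1 / 2 - c : ℝ)‖ = 1 / 2 - c := by
    rw [Real.norm_eq_abs, abs_of_nonneg (by linarith)]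
  rw [h7, h8]
  have h9 : (1 / 2 - c) * ‖(1 : D)‖ ≤ (1 / 2 - c) * 1 :=
    mul_le_mul_of_nonneg_left h2 (by linarith)
  linarith

end
end H12VR

open H12VR H19Cross in
theorem varRP (h : N2P.{u}) : VarRP.{u} := by
  classical
  intro A _ _ _ R _ _ _ G _ _ α k w ha hc hU F ε hε
  have hn : 0 < Fintype.card G := Fintype.card_pos
  have hnR : (1 : ℝ) ≤ Fintype.card G := by exact_mod_cast hn
  have hnR0 : (0 : ℝ) < Fintype.card G := by linarith
  obtain ⟨M, hM, hzM⟩ : ∃ M : ℝ, 1 ≤ M ∧ ∀ z ∈ F, ‖z‖ ≤ M := by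
    refine ⟨1 + ∑ z ∈ F, ‖z‖, ?_, ?_⟩
    · have : 0 ≤ ∑ z ∈ F, ‖z‖ := Finset.sum_nonneg fun z _ => norm_nonneg z
      linarith
    · intro z hz
      have := Finset.single_le_sum (f := fun z : A => ‖z‖) (fun z _ => norm_nonneg z) hz
      linarith
  have hC : 0 < 8 * M ^ 2 := by positivity
  obtain ⟨δ, hδ0, hδ1, hδε⟩ : ∃ δ : ℝ, 0 < δ ∧ δ ≤ 1 ∧ 8 * M ^ 2 * δ ≤ ε := by
    refine ⟨min 1 (ε / (8 * M ^ 2)), lt_min one_pos (by positivity), min_le_left _ _, ?_⟩
    calc 8 * M ^ 2 * min 1 (ε / (8 * M ^ 2)) ≤ 8 * M ^ 2 * (ε / (8 * M ^ 2)) :=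
          mul_le_mul_of_nonneg_left (min_le_right _ _) hC.le
      _ = ε := by field_simp
  have hM2 : 1 ≤ M ^ 2 := by nlinarith
  have hδε' : δ ≤ ε := by nlinarith
  have hδδ : δ ^ 2 ≤ δ := by nlinarith
  obtain ⟨e, he0, he1, he⟩ := hU (2 * Fintype.card G)
    (Finset.univ.image w ∪ (F ×ˢ Finset.univ).image (fun p : A × G => k (α p.2 p.1)) ∪
      (F ×ˢ Finset.univ).image (fun p : A × G => k (α p.2 (p.1 * star p.1)))) (δ ^ 2)
    (by omega) (by positivity)
  have hx0 : 0 ≤ ce hc e := ce_nonneg ha hc he0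
  have hx1 : ce hc e ≤ 1 := by
    have := ce_mono ha hc he1
    rwa [ce_one] at this
  have hxs : star (ce hc e) = ce hc e := (IsSelfAdjoint.of_nonneg hx0).star_eq
  have hav0 : 0 ≤ av α (ce hc e) := av_nonneg hx0
  have hav1 : av α (ce hc e) ≤ 1 := av_le_one hx1
  have havs : star (av α (ce hc e)) = av α (ce hc e) := (IsSelfAdjoint.of_nonneg hav0).star_eq
  set x := av α (ce hc e) with hx
  set c : ℝ := 1 / (2 * Fintype.card G) with hcdef
  have hc0 : 0 ≤ c := by positivity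
  have hc1 : c ≤ 1 / 2 := by
    rw [hcdef]
    apply one_div_le_one_div_of_le (by norm_num)
    linarith
  have hξs : star (x - c • (1 : A)) = x - c • (1 : A) := by
    rw [star_sub, star_smul, star_one, star_trivial c, havs]
  refine ⟨x - c • (1 : A), ?_, hξs, norm_le_one_aux hav0 hav1 hc0 hc1, ?_⟩
  · intro g
    rw [map_sub, hx, av_inv ha, ← Complex.coe_smul, map_smul, map_one]
  intro φ hφ z hz
  have hψ := he (tE ha hc φ hφ)
  set ψ := tE ha hc φ hφ with hψdef
  have hcast : ((2 * Fintype.card G : ℕ) : ℂ) = 2 * (Fintype.card G : ℂ) := by push_cast; rfl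
  have n2_of : ∀ y : R, (ψ.φ (star y * y)).re ≤ δ ^ 2 → n2 ψ y ≤ δ := by
    intro y hy
    rw [n2, ← Real.sqrt_sq hδ0.le]
    exact Real.sqrt_le_sqrt hy
  have hw : ∀ g, n2 ψ (e * w g - w g * e) ≤ δ := by
    intro g
    apply n2_of
    refine (hψ.2 (w g) ?_).1
    apply Finset.mem_union_left
    apply Finset.mem_union_left
    exact Finset.mem_image_of_mem _ (Finset.mem_univ g)
  have hm1 : ∀ g, k (α g z) ∈ (Finset.univ.image w ∪
      (F ×ˢ Finset.univ).image (fun p : A × G => k (α p.2 p.1)) ∪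
      (F ×ˢ Finset.univ).image (fun p : A × G => k (α p.2 (p.1 * star p.1)))) := by
    intro g
    apply Finset.mem_union_left
    apply Finset.mem_union_right
    exact Finset.mem_image.2 ⟨(z, g), Finset.mem_product.2 ⟨hz, Finset.mem_univ g⟩, rfl⟩
  have hm2 : ∀ g, k (α g (z * star z)) ∈ (Finset.univ.image w ∪
      (F ×ˢ Finset.univ).image (fun p : A × G => k (α p.2 p.1)) ∪
      (F ×ˢ Finset.univ).image (fun p : A × G => k (α p.2 (p.1 * star p.1)))) := by
    intro g
    apply Finset.mem_union_right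
    exact Finset.mem_image.2 ⟨(z, g), Finset.mem_product.2 ⟨hz, Finset.mem_univ g⟩, rfl⟩
  have hcz : ∀ g, n2 ψ (e * k (α g z) - k (α g z) * e) ≤ δ := fun g =>
    n2_of _ (hψ.2 _ (hm1 g)).1
  have hcq : ∀ g, n2 ψ (e * k (α g (z * star z)) - k (α g (z * star z)) * e) ≤ δ := fun g =>
    n2_of _ (hψ.2 _ (hm2 g)).1
  have htz : ∀ g, ‖ψ.φ (e * k (α g z)) - ψ.φ (k (α g z)) / (2 * Fintype.card G : ℂ)‖ ≤ δ := by
    intro g
    rw [← hcast]
    exact (hψ.2 _ (hm1 g)).2.trans hδδ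
  have htq : ∀ g, ‖ψ.φ (e * k (α g (z * star z))) -
      ψ.φ (k (α g (z * star z))) / (2 * Fintype.card G : ℂ)‖ ≤ δ := by
    intro g
    rw [← hcast]
    exact (hψ.2 _ (hm2 g)).2.trans hδδ
  have hcC : (c : ℂ) = 1 / (2 * Fintype.card G : ℂ) := by rw [hcdef]; push_cast; rfl
  refine ⟨?_, ?_, ?_⟩
  · have e1 : (x - c • (1 : A)) * z - z * (x - c • (1 : A)) = x * z - z * x := by
      simp only [sub_mul, mul_sub, smul_mul_assoc, mul_smul_comm, one_mul, mul_one]
      abel
    rw [e1]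
    exact (comm_av ha hc h φ hφ e z δ hcz).trans hδε'
  · have e1 : φ.φ ((x - c • (1 : A)) * z) = φ.φ (x * z) - φ.φ z / (2 * Fintype.card G : ℂ) := by
      rw [sub_mul, smul_mul_assoc, one_mul, ← Complex.coe_smul, map_sub, map_smul, hcC,
        smul_eq_mul]
      ring
    rw [e1]
    exact (tr_av ha hc φ hφ e z δ _ htz).trans hδε'
  · -- the variance
    have hlow := low ha hc h φ hφ e he0 he1 z δ M hδ0.le hδ1 hM (hzM z hz) hψ.1
      (by simpa only [act_one ha] using hcq 1) (by simpa only [act_one ha] using htq 1)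
    have hsub := av_sub ha hc h φ hφ e δ hw
    have htr := tr_av ha hc φ hφ e (z * star z) δ _ htq
    have e1 : n2 φ (ce hc e * z) ≤ n2 φ (x * z) + δ * M := by
      have e2 : ce hc e * z = x * z - (x - ce hc e) * z := by
        rw [sub_mul]; abel
      rw [e2]
      refine ((h A φ).2.2.1 _ _).2.1.trans ?_
      refine add_le_add le_rfl (((h A φ).2.2.1 _ _).2.2.2.1.trans ?_)
      exact mul_le_mul hsub (hzM z hz) (norm_nonneg _) hδ0.le
    have e2 : n2 φ (ce hc e * z) ≤ M := by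
      refine ((h A φ).1 _).2.2.1.trans ((norm_mul_le _ _).trans ?_)
      have e3 : ‖ce hc e‖ ≤ 1 := (CStarAlgebra.norm_le_one_iff_of_nonneg _ hx0).2 hx1
      calc ‖ce hc e‖ * ‖z‖ ≤ 1 * M := mul_le_mul e3 (hzM z hz) (norm_nonneg _) zero_le_one
        _ = M := one_mul _
    have e3 : 0 ≤ n2 φ (ce hc e * z) := ((h A φ).1 _).1
    have e4 : 0 ≤ n2 φ (x * z) := ((h A φ).1 _).1
    have e5 : n2 φ (ce hc e * z) ^ 2 - 2 * (M ^ 2 * δ) ≤ n2 φ (x * z) ^ 2 := by
      have hδM : 0 ≤ δ * M := by positivity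
      rcases le_total (δ * M) (n2 φ (ce hc e * z)) with h1 | h1
      · have e6 : n2 φ (ce hc e * z) - δ * M ≤ n2 φ (x * z) := by linarith
        have e7 : (n2 φ (ce hc e * z) - δ * M) ^ 2 ≤ n2 φ (x * z) ^ 2 :=
          pow_le_pow_left₀ (by linarith) e6 2
        have e8 : δ * M * n2 φ (ce hc e * z) ≤ δ * M * M :=
          mul_le_mul_of_nonneg_left e2 hδM
        nlinarith
      · have e6 : n2 φ (ce hc e * z) ^ 2 ≤ δ * M * M := by
          rw [pow_two]
          exact mul_le_mul h1 e2 e3 hδM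
        nlinarith [sq_nonneg (n2 φ (x * z))]
    have e6 : n2 φ ((x - c • (1 : A)) * z) ^ 2 = n2 φ (x * z) ^ 2 -
        2 * c * (φ.φ (x * (z * star z))).re + c ^ 2 * n2 φ z ^ 2 := by
      rw [((h A φ).1 _).2.1, ((h A φ).1 _).2.1, ((h A φ).1 z).2.1, star_mul, hξs, star_mul, havs]
      have e7 : star z * (x - c • (1 : A)) * ((x - c • (1 : A)) * z) =
          star z * x * (x * z) - ((2 * c : ℝ) : ℂ) • (star z * (x * z)) +
            ((c ^ 2 : ℝ) : ℂ) • (star z * z) := by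
        rw [Complex.coe_smul, Complex.coe_smul]
        simp only [sub_mul, mul_sub, smul_mul_assoc, mul_smul_comm, one_mul, mul_one, smul_sub,
          smul_smul, mul_assoc]
        module
      rw [e7, map_add, map_sub, map_smul, map_smul, Complex.add_re, Complex.sub_re, smul_eq_mul,
        smul_eq_mul, Complex.re_ofReal_mul, Complex.re_ofReal_mul, φ.trace (star z) (x * z),
        mul_assoc x z]
    have e7 : (φ.φ (x * (z * star z))).re ≤ n2 φ z ^ 2 * c + δ := by
      have e8 := (Complex.re_le_norm _).trans htr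
      have e9 : (φ.φ (z * star z) / (2 * Fintype.card G : ℂ)).re = n2 φ z ^ 2 * c := by
        have e3 : (2 * Fintype.card G : ℂ) = ((2 * Fintype.card G : ℝ) : ℂ) := by push_cast; rfl
        rw [e3, Complex.div_ofReal_re, φ.trace, ((h A φ).1 z).2.1, hcdef]
        ring
      rw [Complex.sub_re, e9] at e8
      linarith
    rw [e6]
    set a := n2 φ z ^ 2 with hadef
    have ha0 : 0 ≤ a := sq_nonneg _
    have hinv : 1 / (Fintype.card G : ℝ) = 2 * c := by
      rw [hcdef]; field_simp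
    have hv : 1 / (4 * (Fintype.card G : ℝ) ^ 2) = c ^ 2 := by
      rw [hcdef]; field_simp; norm_num
    have hL : a / (2 * (Fintype.card G : ℝ)) = a * c := by
      rw [hcdef]; ring
    rw [hinv, hL] at hlow
    rw [hv]
    have e8 : 2 * c * (φ.φ (x * (z * star z))).re ≤ 2 * c * (a * c + δ) :=
      mul_le_mul_of_nonneg_left e7 (by positivity)
    have e9 : 2 * c * δ ≤ δ := by nlinarith
    have e10 : 2 * c * (M ^ 2 * δ) ≤ M ^ 2 * δ := by
      have : 0 ≤ M ^ 2 * δ := by positivity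
      nlinarith
    have e11 : δ ≤ M ^ 2 * δ := by nlinarith
    nlinarith

end RC
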